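import Pool.Agent.GSH.Elem

set_option autoImplicit false

namespace Pool.Agent.Results.MP_7ed153_lc.AbelByElem

open Pool.Agent.GSH
open scoped commutatorElement

/-- Let `G` be a finite group with finitely many normal subgroups `K i ≤ N i` such that
`N i / K i` is abelian, `G / N i` is an elementary abelian `p i`-group (`p i` prime) and the
`K i` have trivial intersection. Then every language recognised by `G`, over any finite
alphabet, has generalized star height at most one. -/
theorem result {A : Type} [Finite A] {G : Type} [Group G] [Finite G] {ι : Type} [Finite ι]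
    (p : ι → ℕ) (hp : ∀ i, (p i).Prime) (K N : ι → Subgroup G) (hK : ∀ i, (K i).Normal)
    (hN : ∀ i, (N i).Normal) (hKN : ∀ i, K i ≤ N i)
    (hab : ∀ i, ∀ x ∈ N i, ∀ y ∈ N i, ⁅x, y⁆ ∈ K i)
    (hcomm : ∀ i, ∀ g h : G, ⁅g, h⁆ ∈ N i) (hexp : ∀ i, ∀ g : G, g ^ p i ∈ N i)
    (htriv : ⨅ i, K i = ⊥) (f : A → G) (T : Set G) :
    Ht 1 {w : List A | (w.map f).prod ∈ T} :=
  main_elem p hp K N hK hN hKN hab hcomm hexp htriv f T

end Pool.Agent.Results.MP_7ed153_lc.AbelByElem
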