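import Pool.Agent.GSH.FCMain

set_option autoImplicit false

namespace Pool.Agent.Results.MP_7ed153_lc.FiniteCodes

open Pool.Agent.GSH Pool.Agent.GSH.FC

/-- Let `c : B → List A` be a finite code, that is, the extension of `c` to words
`b₁ ⋯ bₙ ↦ c b₁ ⋯ c bₙ` is injective. Let `L` be a language over `B` in the closure of the
languages of finite abelian groups (and of the one-word languages) under Boolean operations and
concatenation. Then the image of `L` in the words over `A` has generalized star height at most
one. -/
theorem result {A B : Type} [Finite A] [Finite B] (c : B → List A)
    (hc : Function.Injective (fun l : List B => (l.map c).flatten)) {L : Set (List B)}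
    (hL : AbCl L) : Ht 1 ((fun l : List B => (l.map c).flatten) '' L) :=
  main_code hc hL

end Pool.Agent.Results.MP_7ed153_lc.FiniteCodes
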