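import Pool.Agent.GSH.NPMain

set_option autoImplicit false

namespace Pool.Agent.Results.MP_7ed153_lc.Nilpotent

open Pool.Agent.GSH

/-- Let `G` be a finite nilpotent group (of any class), `K` a set of nonempty words over the
finite alphabet `A`, none of which is a proper initial part of another one, and let `f` be a map
from `K` to `G` all of whose fibres are star-free languages. Then for every subset `T` of `G` the
language of all products `k₁ ⋯ kₙ` of words of `K` with `f k₁ ⋯ f kₙ ∈ T` has generalized star
height at most one. (For `K` = the one-letter words: every language recognised by a finite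
nilpotent group has generalized star height at most one.) -/
theorem result {A : Type} [Finite A] {G : Type} [Group G] [Finite G] [Group.IsNilpotent G]
    (K : Set (List A)) (hK : ∀ u ∈ K, ∀ v, u ++ v ∈ K → v = []) (hK1 : [] ∉ K)
    (f : List A → G) (hf : ∀ g : G, Ht 0 {u | u ∈ K ∧ f u = g}) (T : Set G) :
    Ht 1 {w : List A | ∃ l : List (List A), (∀ u ∈ l, u ∈ K) ∧ l.flatten = w ∧
      (l.map f).prod ∈ T} :=
  NP.nil_main hK hK1 f hf T

end Pool.Agent.Results.MP_7ed153_lc.Nilpotent
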