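import Pool.Agent.GSH42.Lev

set_option autoImplicit false

namespace Pool.Agent.Results.MP_7ed153_lc.SmallStrongComponents

open Pool.Agent.GSH Pool.Agent.GSH42

/-- Let `A` be a finite alphabet.
(1) Let the states of a finite, possibly nondeterministic automaton over `A` be divided into
levels such that no transition leads to a lower level (for instance the strongly connected
components in a topological order). Suppose that for every level `C` either `C` has at most four
states and every letter acts inside `C` as a partial injection or as a rectangle `D × S` (for
instance as a partial constant map), or there is a nilpotent group `H` of permutations of the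
states such that every letter acts inside `C` as a restriction of a permutation of `H` or as a
rectangle. Then the accepted language has generalized star height at most one, for all sets `I`
and `F` of initial and final states.
(2) Let `M` be a finite monoid, `f : A → M`, and let `g i : A → G i` be finitely many maps to
finite groups `G i`, each nilpotent or isomorphic to a subgroup of `S_4`, such that `f u` is
aperiodic for every word `u` with `g i u = 1` for all `i`. Then every language
`{w : f w ∈ T}`, `T ⊆ M`, has generalized star height at most one. -/
theorem result {A : Type} [Finite A] :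
    (∀ (Q : Type) [Finite Q] (step : A → Q → Q → Prop) (lvl : Q → ℕ) (I F : Set Q),
      (∀ a p q, step a p q → lvl p ≤ lvl q) →
      (∀ i, ({q | lvl q = i}.ncard ≤ 4 ∧
          ∀ a, PInjOn (step a) {q | lvl q = i} ∨ RectOn (step a) {q | lvl q = i}) ∨
        ∃ H : Subgroup (Equiv.Perm Q), Group.IsNilpotent H ∧
          ∀ a, RestrOn (step a) {q | lvl q = i} H ∨ RectOn (step a) {q | lvl q = i}) →
      Ht 1 {w : List A | ∃ p ∈ I, ∃ q ∈ F, Run step w p q}) ∧
    (∀ (M : Type) [Monoid M] [Finite M] (ι : Type) [Finite ι] (G : ι → Type)
      [∀ i, Group (G i)] [∀ i, Finite (G i)],
      (∀ i, Group.IsNilpotent (G i) ∨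
        ∃ φ : G i →* Equiv.Perm (Fin 4), Function.Injective φ) →
      ∀ (f : A → M) (g : ∀ i, A → G i),
      (∀ u : List A, (∀ i, (u.map (g i)).prod = 1) →
        ∃ k : ℕ, (u.map f).prod ^ (k + 1) = (u.map f).prod ^ k) →
      ∀ T : Set M, Ht 1 {w : List A | (w.map f).prod ∈ T}) :=
  ⟨fun _ _ step lvl I F hmono hlev => automaton step lvl hmono hlev I F,
    fun _ _ _ _ _ G _ _ hG f g h T => general G hG f g h T⟩

end Pool.Agent.Results.MP_7ed153_lc.SmallStrongComponents
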